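import Pool.Agent.H500.TH.Stm
import Pool.Agent.H190.SV.E2

set_option autoImplicit false
set_option linter.unusedSectionVars false

/-!
# Project TH (helper500), part E1: there are many generic places (adapted from `H190/SV/E2`)
-/

namespace Pool.Agent.H199.TH.TE2

open NumberField IsDedekindDomain Filter Topology Polynomial
open scoped Pointwise
open Pool.Agent.W401.Cheb (GK IsFrob IsInert dens)
open Pool.Agent.H500.HC (InRay IsRayChar TotPos QBar ZBar em typ jz)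
open Pool.Agent.H500.MW (PosUD)
open Pool.Agent.H500.R2 (UnrOut SpC)
open Pool.Agent.H500.SV
open Pool.Agent.H190.SV.E2 hiding main

/-- **PART E1.** -/
theorem main : Pool.Agent.H500.SV.S_UM → Pool.Agent.H500.SV.S_E1 → Pool.Agent.H500.R2.S_Spl →
    Pool.Agent.H500.TH.S_TE2 := by
  classical
  intro hUM hE1 hSpl K E F _ _ _ _ _ _ j N n B M m0 P α hN hm0 hM hB hP hα Λ hΛ hS
  set c : HeightOneSpectrum (𝓞 K) → ℕ := fun v => (Finset.univ.image (α v)).card with hc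
  have hcn : ∀ v, c v ≤ n := fun v => (Finset.card_image_le).trans (by simp)
  have hlam0 : ∀ lam : HeightOneSpectrum (𝓞 E), 0 < Ideal.absNorm lam.asIdeal := fun lam =>
    Nat.pos_of_ne_zero (Pool.Agent.H500.HC.norm_ne_zero lam)
  -- places from the local data
  have hfirst : ∀ lam : HeightOneSpectrum (𝓞 E), (m0 : 𝓞 E) ∉ lam.asIdeal →
      ∀ S : SD j N n B P lam, S.Good M m0 → ∃ (g : GK K) (v : HeightOneSpectrum (𝓞 K)),
        (∀ i i', dl S g i = dl S g i' → S.rel M i i') ∧ (∀ i i', S.rel M i i' → dl S g i = dl S g i') ∧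
        (N : 𝓞 K) ∉ v.asIdeal ∧ NoRU α v ∧ (Finset.univ.image (dl S g)).card ≤ c v := by
    intro lam hml S hG
    obtain ⟨U', hZ, hUn, hUo, hUk, -, -, hUM'⟩ := hUM K E j N n B P lam S M hM
    obtain ⟨g, hgU, hg⟩ := exists_gen S.ρ U' (fun h hh => ((hZ h).1 hh).1) m0
      (fun i i' => ¬ S.rel M i i') (by
        intro i i' hR s hs0 hs1
        rcases hG i i' with h | h
        · exact (hR h).elim
        · obtain ⟨u, hu, hne⟩ := h s hs0 hs1
          refine ⟨u ^ M, hUM' u hu, fun he => hne ?_⟩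
          rw [map_pow, Units.val_pow_eq_pow_val, (diag_pow (S.hdiag u hu) M).2,
            (diag_pow (S.hdiag u hu) M).2, ← pow_mul, ← pow_mul, ← mul_assoc] at he
          exact he)
    obtain ⟨v, σ, hv, hσ, hσk⟩ := Pool.Agent.H500.R2.frob_ex S.ρ.ker inferInstance S.hop g
      (Nat.mul_pos hN (hlam0 lam))
    obtain ⟨hv1, hv2⟩ := mem_split hv
    have hgσ := ker_eq S hσk
    have hZg := (hZ g).1 hgU
    refine ⟨g, v, ?_, fun i i' h => hZg.2 i i' h, hv1,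
      generic S (M := M) hml hv1 hv2 (hP v hv1) (hα v hv1) hσ hgσ hZg hg, ?_⟩
    · intro i i' he
      by_contra hn
      exact hg i i' hn (by
        show dl S g i ^ m0 = dl S g i' ^ m0
        rw [he])
    · exact card_le S.ψ (α v) (dl S g) (frob_eig S hv1 hv2 (hP v hv1) hσ hgσ hZg.1).2
  have hfm : {lam : HeightOneSpectrum (𝓞 E) | (m0 : 𝓞 E) ∈ lam.asIdeal}.Finite :=
    Pool.Agent.H500.Kum.fin_mem (E := E) (x := (m0 : 𝓞 E)) (by exact_mod_cast hm0.ne')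
  -- the maximal number of values
  obtain ⟨v0, hv0, hNR, hmax⟩ : ∃ v0 : HeightOneSpectrum (𝓞 K), (N : 𝓞 K) ∉ v0.asIdeal ∧ NoRU α v0 ∧
      ∀ v : HeightOneSpectrum (𝓞 K), (N : 𝓞 K) ∉ v.asIdeal → NoRU α v → c v ≤ c v0 := by
    have hex : ∃ m : ℕ, ∃ v : HeightOneSpectrum (𝓞 K), (N : 𝓞 K) ∉ v.asIdeal ∧ NoRU α v ∧
        n - c v = m := by
      obtain ⟨lam, hlam, hml⟩ := (hΛ.sdiff hfm).nonempty
      obtain ⟨S, hG⟩ := hS lam hlam
      obtain ⟨g, v, -, -, h1, h2, -⟩ := hfirst lam hml S hG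
      exact ⟨_, v, h1, h2, rfl⟩
    obtain ⟨v0, h1, h2, h3⟩ := Nat.find_spec hex
    refine ⟨v0, h1, h2, fun v hv hv' => ?_⟩
    have h4 : Nat.find hex ≤ n - c v := Nat.find_min' hex ⟨v, hv, hv', rfl⟩
    have h5 := hcn v
    have h6 := hcn v0
    omega
  obtain ⟨U0, hU0o, hU0n, hU0⟩ := hSpl K F
  have hU0f : Finite (GK K ⧸ U0) := Subgroup.quotient_finite_of_isOpen _ hU0o
  have hi0 : 0 < U0.index := by
    rw [Subgroup.index_eq_card]
    exact Nat.card_pos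
  set R : ℕ := m0 * (n ^ 2).factorial * U0.index with hR
  have hR0 : 0 < R := Nat.mul_pos (Nat.mul_pos hm0 (Nat.factorial_pos _)) hi0
  -- the exceptional places
  have hf1 : {lam : HeightOneSpectrum (𝓞 E) | ((Ideal.absNorm v0.asIdeal : ℕ) : 𝓞 E) ∈
      lam.asIdeal}.Finite := Pool.Agent.H500.Kum.fin_mem (E := E)
        (x := ((Ideal.absNorm v0.asIdeal : ℕ) : 𝓞 E))
        (by exact_mod_cast Pool.Agent.H500.HC.norm_ne_zero v0)
  have hf2 := hE1 K E j N n B M P α hM hB v0 hv0 (hP v0 hv0) hNR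
  have hf3 : {lam : HeightOneSpectrum (𝓞 E) | ∃ i i', α v0 i ≠ α v0 i' ∧
      ∃ S : SD j N n B P lam, S.ψ (α v0 i ^ R - α v0 i' ^ R) = 0}.Finite := by
    have h1 : {lam : HeightOneSpectrum (𝓞 E) | ∃ i i', α v0 i ≠ α v0 i' ∧
      ∃ S : SD j N n B P lam, S.ψ (α v0 i ^ R - α v0 i' ^ R) = 0} =
        ⋃ i, ⋃ i', {lam | α v0 i ≠ α v0 i' ∧
          ∃ S : SD j N n B P lam, S.ψ (α v0 i ^ R - α v0 i' ^ R) = 0} := by
      ext lam
      simp
    rw [h1]
    refine Set.finite_iUnion fun i => Set.finite_iUnion fun i' => ?_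
    by_contra hinf
    have hne : α v0 i ≠ α v0 i' := by
      obtain ⟨lam, h, -⟩ := Set.Infinite.nonempty hinf
      exact h
    have h2 := Pool.Agent.H500.HC.eq_zero_of_inf j (z := α v0 i ^ R - α v0 i' ^ R) hinf
      (by
        rintro lam ⟨-, S, hS⟩
        exact ⟨S.k, inferInstance, S.ψ, S.hker, hS⟩)
    exact hne (hNR i i' ⟨R, hR0, sub_eq_zero.1 h2⟩)
  obtain ⟨lam, hlam, hex⟩ := (hΛ.sdiff (((hfm.union hf1).union hf2).union hf3)).nonempty
  simp only [Set.mem_union, Set.mem_ofPred_eq, not_or] at hex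
  obtain ⟨⟨⟨hml, hnl⟩, he1⟩, he2⟩ := hex
  obtain ⟨S, hG⟩ := hS lam hlam
  -- the Frobenius elements at `v0`
  obtain ⟨σ, hσ⟩ := Pool.Agent.H500.R2.frob_at v0
  have hZσ : S.Z M σ := by
    by_contra hn
    exact he1 ⟨S, σ, hσ, hn⟩
  have hv0' : ((Ideal.absNorm lam.asIdeal : ℕ) : 𝓞 K) ∉ v0.asIdeal := by
    intro h
    obtain ⟨l, f, hl, hlm, -, hlf⟩ := Pool.Agent.H500.R2.exists_char lam
    rw [hlf, Nat.cast_pow] at h
    have h1 : (l : 𝓞 K) ∈ v0.asIdeal := v0.isPrime.mem_of_pow_mem _ h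
    have h2 := (Pool.Agent.H500.HC.natCast_mem_iff_dvd hl h1).1 (Pool.Agent.H500.HC.norm_mem v0)
    exact hnl ((Pool.Agent.H500.HC.natCast_mem_iff_dvd hl hlm).2 h2)
  obtain ⟨hα1, hα2⟩ := frob_eig S hv0 hv0' (hP v0 hv0) hσ rfl hZσ.1
  have hRne : ∀ i i', α v0 i ≠ α v0 i' → S.ψ (α v0 i) ^ R ≠ S.ψ (α v0 i') ^ R := by
    intro i i' hne he
    apply he2
    refine ⟨i, i', hne, S, ?_⟩
    rw [map_sub, map_pow, map_pow, he, sub_self]
  have hinj : ∀ i i', S.ψ (α v0 i) = S.ψ (α v0 i') → α v0 i = α v0 i' := by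
    intro i i' he
    by_contra hne
    exact hRne i i' hne (by rw [he])
  have hsepσ : ∀ i i', dl S σ i = dl S σ i' → S.rel M i i' := by
    obtain ⟨g, v, hg1, hg2, hv, hv', hcv⟩ := hfirst lam hml S hG
    have h1 : (Finset.univ.image (dl S g)).card ≤ (Finset.univ.image (dl S σ)).card :=
      (hcv.trans (hmax v hv hv')).trans (card_ge S.ψ (α v0) (dl S σ) hα1 hinj)
    have h2 := sep (dl S σ) (dl S g) (fun i i' he => hZσ.2 i i' (hg1 i i' he)) h1
    exact fun i i' he => hg1 i i' (h2 i i' he)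
  have hRσ : ∀ i i', ¬ S.rel M i i' → dl S σ i ^ R ≠ dl S σ i' ^ R := by
    intro i i' hn
    obtain ⟨a, ha⟩ := hα2 i
    obtain ⟨b, hb⟩ := hα2 i'
    rw [ha, hb]
    apply hRne
    intro hab
    apply hn
    apply hsepσ
    rw [ha, hb, hab]
  -- the separating element
  obtain ⟨U', hZ, hUn, hUo, hUk, -, -, -⟩ := hUM K E j N n B P lam S M hM
  obtain ⟨g, hgU, hg⟩ := exists_gen S.ρ (U' ⊓ U0) (fun h hh => ((hZ h).1 hh.1).1) m0
    (fun i i' => ¬ S.rel M i i') (by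
      intro i i' hn s hs0 hs1
      refine ⟨σ ^ U0.index, ⟨U'.pow_mem ((hZ σ).2 hZσ) _, U0.pow_index_mem σ⟩, fun he => ?_⟩
      rw [map_pow, Units.val_pow_eq_pow_val, (diag_pow hZσ.1 _).2, (diag_pow hZσ.1 _).2, ← pow_mul,
        ← pow_mul] at he
      apply hRσ i i' hn
      have hdvd : U0.index * (m0 * s) ∣ R := by
        obtain ⟨t, ht⟩ := Nat.dvd_factorial hs0 hs1
        refine ⟨t, ?_⟩
        rw [hR, ht]
        ring
      obtain ⟨t, ht⟩ := hdvd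
      rw [ht, pow_mul _ _ t, pow_mul _ _ t]
      exact congrArg (· ^ t) he)
  have hZg := (hZ g).1 hgU.1
  refine (hU0 S.ρ.ker inferInstance S.hop g hgU.2 (N * Ideal.absNorm lam.asIdeal)
    (Nat.mul_pos hN (hlam0 lam))).mono ?_
  rintro v ⟨hv, hsp, τ, hτ, hτk⟩
  obtain ⟨hv1, hv2⟩ := mem_split hv
  exact ⟨hv1, hsp, generic S (M := M) hml hv1 hv2 (hP v hv1) (hα v hv1) hτ (ker_eq S hτk) hZg hg⟩

end Pool.Agent.H199.TH.TE2
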